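import Pool.Agent.K4H53.BSX.Defs
import Pool.Agent.K4H53.BSR.Alg2
import Pool.Agent.K4H53.BSR.Lmain4
import Pool.Agent.R425.P.Lt
import Pool.Agent.R425.P.Pr
import Pool.Agent.R425.P.Pc
import Pool.Agent.Y288.G.Perr
import Pool.Agent.Y288.G.Perc
import Pool.Agent.Y255.LT.Fin

/-!
# Supersingular reduction at 2, and 2 may ramify
-/

set_option autoImplicit false

open NumberField NumberField.InfinitePlace IsDedekindDomain WeierstrassCurve MeasureTheory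
open UpperHalfPlane MatrixGroups CongruenceSubgroup

namespace Pool.Agent.K4H53.BSX.R2

open scoped Classical

open Pool.Agent.TH841.NF.D (Sha)
open Pool.Agent.K4H53.BSX.D

section proof

open Pool.Agent.Y702

/-- the values, positive discriminant -/
lemma values_pos {N : ℕ} [NeZero N] (W : WeierstrassCurve ℤ) (hΔ : 0 < W.Δ)
    (f : CuspForm (Gamma0 N : Subgroup (GL (Fin 2) ℝ)) 2) (hf : IsNewform W N f)
    (Λ : PeriodPair) (hg₂ : Λ.g₂ = (W.c₄ : ℂ) / 12) (hg₃ : Λ.g₃ = (W.c₆ : ℂ) / 216)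
    (hman : ∃ c : ℤ, Odd c ∧ ∀ γ ∈ Gamma0 N, ∀ z : ℍ,
      (c : ℂ) * (prim f ((γ • z : ℍ) : ℂ) - prim f (z : ℂ)) ∈ Λ.lattice)
    (q : ℕ) (hq : q.Prime) (hqΔ : ¬ (q : ℤ) ∣ 2 * W.Δ) (hqo : Odd ((q : ℤ) - pts W (ZMod q)))
    (hΔ2 : ¬ (2 : ℤ) ∣ W.Δ) (hss : Even ((2 : ℤ) - pts W (ZMod 2)))
    (m : ℕ) [NeZero m] (hsq : Squarefree m)
    (hm : ∀ l : ℕ, l.Prime → l ∣ m → ¬ (l : ℤ) ∣ 2 * W.Δ)
    (M : Type) [Field M] [NumberField M] [IsCyclotomicExtension {4 * m} ℚ M]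
    (K : IntermediateField ℚ M) (n : ℕ) (hn : Module.finrank ℚ K = 2 ^ n)
    (htK : Odd (Nat.card (tors K W))) (htQ : Odd (Nat.card (tors ℚ W))) :
    Omega ℚ W ≠ 0 ∧ Omega K W ≠ 0 ∧
    ∃ x₀ x : ℚ, HasValue ℚ W x₀ ∧ HasValue K W x ∧ Odd x₀.den ∧ Odd x.den ∧
      (Odd x.num ↔ Odd x₀.num ∧ (nrComplexPlaces K = 0 ∧
        ∀ l : ℕ, l.Prime → (l : ℤ) ∣ discr K → l ≠ 2 → Odd ((l : ℤ) - pts W (ZMod l)))) := by
  have hfI := isForm hf
  -- the lattice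
  obtain ⟨Op, Om, hOp, hOm, hlat⟩ := Pool.Agent.R425.P.latP Λ ((W.c₄ : ℝ) / 12)
    ((W.c₆ : ℝ) / 216)
    (by rw [hg₂]; push_cast; rfl) (by rw [hg₃]; push_cast; rfl) (by
      have h1 : (1728 : ℝ) * W.Δ = (W.c₄ : ℝ) ^ 3 - (W.c₆ : ℝ) ^ 2 := by
        exact_mod_cast congrArg (fun x : ℤ => (x : ℝ)) W.c_relation
      have h2 : 0 < (W.Δ : ℝ) := by exact_mod_cast hΔ
      have h3 : ((W.c₄ : ℝ) / 12) ^ 3 - 27 * ((W.c₆ : ℝ) / 216) ^ 2 = (W.Δ : ℝ) := by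
        linear_combination (-1 / 1728 : ℝ) * h1
      rw [h3]
      exact h2)
  have hreal : realPeriod W = 2 * Op := by
    unfold realPeriod
    simp_rw [cubic_eq]
    rw [Pool.Agent.R425.P.s_perrP W Λ Op Om hOp hOm hg₂ hg₃ hlat]
  have hcomp : complexPeriod W = 2 * Op * Om := by
    unfold complexPeriod
    simp_rw [cubic_eq]
    rw [Pool.Agent.R425.P.s_percP W Λ Op Om hOp hOm hg₂ hg₃ hlat]
    ring
  have hOmega : ∀ (F : Type) [Field F] [NumberField F],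
      Omega F W = (2 * Op) ^ nrRealPlaces F * (2 * Op * Om) ^ nrComplexPlaces F := by
    intro F _ _
    unfold Omega
    rw [hreal, hcomp]
  have hOmega0 : ∀ (F : Type) [Field F] [NumberField F], Omega F W ≠ 0 := by
    intro F _ _
    rw [hOmega]
    positivity
  have hOQ : Omega ℚ W = 2 * Op := by
    rw [hOmega, nrRealPlaces_eq_one_of_finrank_eq_one (Module.finrank_self ℚ),
      nrComplexPlaces_eq_zero_of_finrank_eq_one (Module.finrank_self ℚ), pow_one, pow_zero, mul_one]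
  -- the periods of the form
  obtain ⟨cc, hcc, hman'⟩ := hman
  have hqN : ¬ q ∣ N := by
    intro h
    exact hqΔ (((hfI.level q hq).1 h).mul_left 2)
  have hq2 : q ≠ 2 := by
    rintro rfl
    exact hqΔ (Dvd.intro _ rfl)
  obtain ⟨s, t, hPer⟩ := Pool.Agent.R425.P.exists_perP hOp hOm hlat hcc (f := f) (by
    rintro x ⟨γ, rfl⟩
    have h1 := Pool.Agent.Y18.BSD.per_spec f (Additive.toMul γ) UpperHalfPlane.I
    have h2 := hman' _ (Additive.toMul γ).2 UpperHalfPlane.I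
    have h3 : prim f ((((Additive.toMul γ : Gamma0 N) : SL(2, ℤ)) • UpperHalfPlane.I : ℍ) : ℂ) -
        prim f (UpperHalfPlane.I : ℂ) = Pool.Agent.Y18.BSD.per f (Additive.toMul γ) := by
      have h4 : prim f ((((Additive.toMul γ : Gamma0 N) : SL(2, ℤ)) • UpperHalfPlane.I : ℍ) : ℂ) =
          prim f (UpperHalfPlane.I : ℂ) + Pool.Agent.Y18.BSD.per f (Additive.toMul γ) := h1
      rw [h4]
      ring
    rw [h3] at h2
    exact h2) hfI hq hqN hq2 hqo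
  have hmodd : Odd m := by
    rw [← Nat.not_even_iff_odd, even_iff_two_dvd]
    intro h
    exact hm 2 Nat.prime_two h (Dvd.intro _ rfl)
  have hcoN : Nat.Coprime (4 * m) N := by
    rw [Nat.coprime_iff_gcd_eq_one]
    by_contra h
    obtain ⟨l, hl, hl2⟩ := Nat.exists_prime_and_dvd h
    have h3 := (hfI.level l hl).1 (hl2.trans (Nat.gcd_dvd_right _ _))
    rcases (Nat.Prime.dvd_mul hl).1 (hl2.trans (Nat.gcd_dvd_left _ _)) with h4 | h4
    · have h5 : l = 2 := by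
        have h6 : l ∣ 2 ^ 2 := by norm_num; exact h4
        exact (Nat.prime_dvd_prime_iff_eq hl Nat.prime_two).1 (hl.dvd_of_dvd_pow h6)
      rw [h5] at h3
      exact hΔ2 (by exact_mod_cast h3)
    · exact (hm l hl h4) (Dvd.dvd.mul_left h3 2)
  have : NeZero (4 * m) := ⟨mul_ne_zero (by norm_num) (NeZero.ne m)⟩
  obtain ⟨H, hHd, hHp, him, D, M', hDo, hMo, hval⟩ := Pool.Agent.K4H53.BSR.l_mainP4
    hΔ.ne' hfI hPer hq hqN hq2 hqo hss m (4 * m) hsq hmodd rfl hcoN M K n hn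
  -- the value over `ℚ`
  obtain ⟨x₀, hx₀, hx₀d, hx₀n⟩ : ∃ x₀ : ℚ, HasValue ℚ W x₀ ∧ Odd x₀.den ∧
      (Odd x₀.num ↔ Odd s) := by
    obtain ⟨L₀, hL1, hL2, hL3⟩ := Pool.Agent.R425.G.exists_LQ hfI
    refine value_of W hL1 hL2 (r := (s : ℝ) / t * (2 * Op)) ?_ hPer.t_odd htQ ?_
    · have ht0 : (t : ℂ) ≠ 0 := by
        have h3 := hPer.t_odd
        have h4 : t ≠ 0 := by
          rintro rfl
          exact absurd h3 (by decide)
        exact_mod_cast h4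
      have h3 : L₀ 1 = (s : ℂ) / t * (2 * Op) := by
        rw [hL3, div_mul_eq_mul_div, eq_div_iff ht0, mul_comm, hPer.val]
      rw [h3]
      push_cast
      ring
    · have ht0 : (t : ℝ) ≠ 0 := by
        have h3 := hPer.t_odd
        have h4 : t ≠ 0 := by
          rintro rfl
          exact absurd h3 (by decide)
        exact_mod_cast h4
      rw [hOQ]
      simp only [Rat.numberField_discr, Int.cast_one, abs_one, Real.sqrt_one, mul_one]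
      rw [abs_mul, abs_div, abs_of_pos (show (0 : ℝ) < 2 * Op by positivity), ← mul_assoc,
        mul_div_cancel₀ _ (abs_ne_zero.2 ht0)]
  -- the value over `K`
  obtain ⟨x, hx, hxd, hxn⟩ : ∃ x : ℚ, HasValue K W x ∧ Odd x.den ∧ (Odd x.num ↔ Odd M') := by
    have hre : H 1 = ((H 1).re : ℂ) := Complex.ext rfl (by rw [him]; rfl)
    have hnorm : ‖H 1‖ = |(H 1).re| := by
      rw [hre, Complex.norm_real, Real.norm_eq_abs, Complex.ofReal_re]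
    refine value_of W hHd hHp hre hDo htK ?_
    rw [hOmega K, ← hval, hnorm]
  refine ⟨hOmega0 ℚ, hOmega0 K, x₀, x, hx₀, hx, hx₀d, hxd, ?_⟩
  rw [hxn, hMo, hx₀n]
  exact Iff.rfl

/-- the values, negative discriminant -/
lemma values_neg {N : ℕ} [NeZero N] (W : WeierstrassCurve ℤ) (hΔ : W.Δ < 0)
    (f : CuspForm (Gamma0 N : Subgroup (GL (Fin 2) ℝ)) 2) (hf : IsNewform W N f)
    (Λ : PeriodPair) (hg₂ : Λ.g₂ = (W.c₄ : ℂ) / 12) (hg₃ : Λ.g₃ = (W.c₆ : ℂ) / 216)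
    (hman : ∃ c : ℤ, Odd c ∧ ∀ γ ∈ Gamma0 N, ∀ z : ℍ,
      (c : ℂ) * (prim f ((γ • z : ℍ) : ℂ) - prim f (z : ℂ)) ∈ Λ.lattice)
    (q : ℕ) (hq : q.Prime) (hqΔ : ¬ (q : ℤ) ∣ 2 * W.Δ) (hqo : Odd ((q : ℤ) - pts W (ZMod q)))
    (hΔ2 : ¬ (2 : ℤ) ∣ W.Δ) (hss : Even ((2 : ℤ) - pts W (ZMod 2)))
    (m : ℕ) [NeZero m] (hsq : Squarefree m)
    (hm : ∀ l : ℕ, l.Prime → l ∣ m → ¬ (l : ℤ) ∣ 2 * W.Δ)
    (M : Type) [Field M] [NumberField M] [IsCyclotomicExtension {4 * m} ℚ M]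
    (K : IntermediateField ℚ M) (n : ℕ) (hn : Module.finrank ℚ K = 2 ^ n)
    (htK : Odd (Nat.card (tors K W))) (htQ : Odd (Nat.card (tors ℚ W))) :
    Omega ℚ W ≠ 0 ∧ Omega K W ≠ 0 ∧
    ∃ x₀ x : ℚ, HasValue ℚ W x₀ ∧ HasValue K W x ∧ Odd x₀.den ∧ Odd x.den ∧
      (Odd x.num ↔ Odd x₀.num ∧
        ∀ l : ℕ, l.Prime → (l : ℤ) ∣ discr K → l ≠ 2 → Odd ((l : ℤ) - pts W (ZMod l))) := by
  have hfI := isForm hf
  -- the lattice
  obtain ⟨Op, Om, hOp, hOm, hlat⟩ := Pool.Agent.Y255.LT.s_lat Λ ((W.c₄ : ℝ) / 12)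
    ((W.c₆ : ℝ) / 216)
    (by rw [hg₂]; push_cast; rfl) (by rw [hg₃]; push_cast; rfl) (by
      have h1 : (1728 : ℝ) * W.Δ = (W.c₄ : ℝ) ^ 3 - (W.c₆ : ℝ) ^ 2 := by
        exact_mod_cast congrArg (fun x : ℤ => (x : ℝ)) W.c_relation
      have h2 : (W.Δ : ℝ) < 0 := by exact_mod_cast hΔ
      have h3 : ((W.c₄ : ℝ) / 12) ^ 3 - 27 * ((W.c₆ : ℝ) / 216) ^ 2 = (W.Δ : ℝ) := by
        linear_combination (-1 / 1728 : ℝ) * h1
      rw [h3]
      exact h2)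
  have hreal : realPeriod W = 2 * Op := by
    unfold realPeriod
    simp_rw [cubic_eq]
    rw [Pool.Agent.Y288.G.s_perr W hΔ Λ Op Om hOp hOm hg₂ hg₃ hlat]
  have hcomp : complexPeriod W = 4 * Op * Om := by
    unfold complexPeriod
    simp_rw [cubic_eq]
    rw [Pool.Agent.Y288.G.s_perc W hΔ Λ Op Om hOp hOm hg₂ hg₃ hlat]
    ring
  have hOmega : ∀ (F : Type) [Field F] [NumberField F],
      Omega F W = (2 * Op) ^ nrRealPlaces F * (4 * Op * Om) ^ nrComplexPlaces F := by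
    intro F _ _
    unfold Omega
    rw [hreal, hcomp]
  have hOmega0 : ∀ (F : Type) [Field F] [NumberField F], Omega F W ≠ 0 := by
    intro F _ _
    rw [hOmega]
    positivity
  have hOQ : Omega ℚ W = 2 * Op := by
    rw [hOmega, nrRealPlaces_eq_one_of_finrank_eq_one (Module.finrank_self ℚ),
      nrComplexPlaces_eq_zero_of_finrank_eq_one (Module.finrank_self ℚ), pow_one, pow_zero, mul_one]
  -- the periods of the form
  obtain ⟨cc, hcc, hman'⟩ := hman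
  have hqN : ¬ q ∣ N := by
    intro h
    exact hqΔ (((hfI.level q hq).1 h).mul_left 2)
  have hq2 : q ≠ 2 := by
    rintro rfl
    exact hqΔ (Dvd.intro _ rfl)
  obtain ⟨s, t, hPer⟩ := Pool.Agent.R425.G.exists_perA hOp hOm hlat hcc (f := f) (by
    rintro x ⟨γ, rfl⟩
    have h1 := Pool.Agent.Y18.BSD.per_spec f (Additive.toMul γ) UpperHalfPlane.I
    have h2 := hman' _ (Additive.toMul γ).2 UpperHalfPlane.I
    have h3 : prim f ((((Additive.toMul γ : Gamma0 N) : SL(2, ℤ)) • UpperHalfPlane.I : ℍ) : ℂ) -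
        prim f (UpperHalfPlane.I : ℂ) = Pool.Agent.Y18.BSD.per f (Additive.toMul γ) := by
      have h4 : prim f ((((Additive.toMul γ : Gamma0 N) : SL(2, ℤ)) • UpperHalfPlane.I : ℍ) : ℂ) =
          prim f (UpperHalfPlane.I : ℂ) + Pool.Agent.Y18.BSD.per f (Additive.toMul γ) := h1
      rw [h4]
      ring
    rw [h3] at h2
    exact h2) hfI hq hqN hq2 hqo
  have hmodd : Odd m := by
    rw [← Nat.not_even_iff_odd, even_iff_two_dvd]
    intro h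
    exact hm 2 Nat.prime_two h (Dvd.intro _ rfl)
  have hcoN : Nat.Coprime (4 * m) N := by
    rw [Nat.coprime_iff_gcd_eq_one]
    by_contra h
    obtain ⟨l, hl, hl2⟩ := Nat.exists_prime_and_dvd h
    have h3 := (hfI.level l hl).1 (hl2.trans (Nat.gcd_dvd_right _ _))
    rcases (Nat.Prime.dvd_mul hl).1 (hl2.trans (Nat.gcd_dvd_left _ _)) with h4 | h4
    · have h5 : l = 2 := by
        have h6 : l ∣ 2 ^ 2 := by norm_num; exact h4
        exact (Nat.prime_dvd_prime_iff_eq hl Nat.prime_two).1 (hl.dvd_of_dvd_pow h6)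
      rw [h5] at h3
      exact hΔ2 (by exact_mod_cast h3)
    · exact (hm l hl h4) (Dvd.dvd.mul_left h3 2)
  have : NeZero (4 * m) := ⟨mul_ne_zero (by norm_num) (NeZero.ne m)⟩
  obtain ⟨H, hHd, hHp, him, D, M', hDo, hMo, hval⟩ := Pool.Agent.K4H53.BSR.l_mainA4
    hΔ.ne hfI hPer hq hqN hq2 hqo hss m (4 * m) hsq hmodd rfl hcoN M K n hn
  -- the value over `ℚ`
  obtain ⟨x₀, hx₀, hx₀d, hx₀n⟩ : ∃ x₀ : ℚ, HasValue ℚ W x₀ ∧ Odd x₀.den ∧
      (Odd x₀.num ↔ Odd s) := by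
    obtain ⟨L₀, hL1, hL2, hL3⟩ := Pool.Agent.R425.G.exists_LQ hfI
    refine value_of W hL1 hL2 (r := (s : ℝ) / t * (2 * Op)) ?_ hPer.t_odd htQ ?_
    · have ht0 : (t : ℂ) ≠ 0 := by
        have h3 := hPer.t_odd
        have h4 : t ≠ 0 := by
          rintro rfl
          exact absurd h3 (by decide)
        exact_mod_cast h4
      have h3 : L₀ 1 = (s : ℂ) / t * (2 * Op) := by
        rw [hL3, div_mul_eq_mul_div, eq_div_iff ht0, mul_comm, hPer.val]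
      rw [h3]
      push_cast
      ring
    · have ht0 : (t : ℝ) ≠ 0 := by
        have h3 := hPer.t_odd
        have h4 : t ≠ 0 := by
          rintro rfl
          exact absurd h3 (by decide)
        exact_mod_cast h4
      rw [hOQ]
      simp only [Rat.numberField_discr, Int.cast_one, abs_one, Real.sqrt_one, mul_one]
      rw [abs_mul, abs_div, abs_of_pos (show (0 : ℝ) < 2 * Op by positivity), ← mul_assoc,
        mul_div_cancel₀ _ (abs_ne_zero.2 ht0)]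
  -- the value over `K`
  obtain ⟨x, hx, hxd, hxn⟩ : ∃ x : ℚ, HasValue K W x ∧ Odd x.den ∧ (Odd x.num ↔ Odd M') := by
    have hre : H 1 = ((H 1).re : ℂ) := Complex.ext rfl (by rw [him]; rfl)
    have hnorm : ‖H 1‖ = |(H 1).re| := by
      rw [hre, Complex.norm_real, Real.norm_eq_abs, Complex.ofReal_re]
    refine value_of W hHd hHp hre hDo htK ?_
    rw [hOmega K, ← hval, hnorm]
  refine ⟨hOmega0 ℚ, hOmega0 K, x₀, x, hx₀, hx, hx₀d, hxd, ?_⟩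
  rw [hxn, hMo, hx₀n]
  exact Iff.rfl

end proof

/-- **Main theorem.** Let `W` be a Weierstrass equation with integral coefficients and discriminant
`Δ ≠ 0`, minimal at all primes, with supersingular reduction at two: `Δ` is odd and `a_2` is even; let `f` be
the newform of `W`, of a level `N` with the same prime divisors as `Δ`; let `Λ` be the period lattice of the
differential `dx / (2 y + a₁ x + a₃)` of `W` (the lattice with `g₂ = c₄ / 12`, `g₃ = c₆ / 216`), and assume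
that `c` times the periods of `2 π i f(z) dz` on `Γ₀(N)` are in `Λ` for an odd `c` (the Manin constant is
odd).  Assume that `a_q` is odd for some prime `q` that does not divide `2 Δ`.  Let `m` be squarefree and
prime to `2 Δ`, `M` the `4 m`-th cyclotomic field, `K` a subfield of degree `2^n`.  Let `A` be the statement
that `a_l` is odd for all odd primes `l` that divide the discriminant of `K`, and that `K` is totally real if
`Δ > 0`. -/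
theorem main {N : ℕ} [NeZero N] (W : WeierstrassCurve ℤ) (hΔ : W.Δ ≠ 0)
    (hmin : ∀ p : HeightOneSpectrum (𝓞 ℚ), MinimalAt W p)
    (f : CuspForm (Gamma0 N : Subgroup (GL (Fin 2) ℝ)) 2) (hf : IsNewform W N f)
    (Λ : PeriodPair) (hg₂ : Λ.g₂ = (W.c₄ : ℂ) / 12) (hg₃ : Λ.g₃ = (W.c₆ : ℂ) / 216)
    (hman : ∃ c : ℤ, Odd c ∧ ∀ γ ∈ Gamma0 N, ∀ z : ℍ,
      (c : ℂ) * (prim f ((γ • z : ℍ) : ℂ) - prim f (z : ℂ)) ∈ Λ.lattice)
    (q : ℕ) (hq : q.Prime) (hqΔ : ¬ (q : ℤ) ∣ 2 * W.Δ) (hqo : Odd ((q : ℤ) - pts W (ZMod q)))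
    (hΔ2 : ¬ (2 : ℤ) ∣ W.Δ) (hss : Even ((2 : ℤ) - pts W (ZMod 2)))
    (m : ℕ) [NeZero m] (hsq : Squarefree m)
    (hm : ∀ l : ℕ, l.Prime → l ∣ m → ¬ (l : ℤ) ∣ 2 * W.Δ)
    (M : Type) [Field M] [NumberField M] [IsCyclotomicExtension {4 * m} ℚ M]
    (K : IntermediateField ℚ M) (n : ℕ) (hn : Module.finrank ℚ K = 2 ^ n)
    (A : Prop) (hA : A ↔ (0 < W.Δ → IsTotallyReal K) ∧
      ∀ l : ℕ, l.Prime → (l : ℤ) ∣ discr K → l ≠ 2 → Odd ((l : ℤ) - pts W (ZMod l))) :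
    ((∀ v : HeightOneSpectrum (𝓞 K), MinimalAt W v) ∧
      {v : HeightOneSpectrum (𝓞 K) | c W v ≠ 1}.Finite ∧
      {p : HeightOneSpectrum (𝓞 ℚ) | c W p ≠ 1}.Finite ∧
      Odd (Nat.card (tors K W)) ∧ Odd (Nat.card (tors ℚ W)) ∧ (Odd (Tam K W) ↔ Odd (Tam ℚ W))) ∧
    (∃ x₀ x : ℚ, HasValue ℚ W x₀ ∧ HasValue K W x ∧ Odd x₀.den ∧ Odd x.den ∧
      (Odd x.num ↔ Odd x₀.num ∧ A)) ∧
    ((rank K W = 0 ∧ Sha2 K W = {0}) → (rank ℚ W = 0 ∧ Sha2 ℚ W = {0}) ∧ A) ∧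
    (Odd (Tam ℚ W) → (rank ℚ W = 0 ∧ Sha2 ℚ W = {0}) ∧ A → (rank K W = 0 ∧ Sha2 K W = {0})) ∧
    (BSDModTwo ℚ W → BSDModTwo K W) ∧
    (A → BSDModTwo K W → BSDModTwo ℚ W) ∧
    (¬ A → BSDModTwo K W) := by
  have hreal_iff : IsTotallyReal K ↔ nrComplexPlaces K = 0 := by
    rw [nrComplexPlaces, Fintype.card_eq_zero_iff]
    constructor
    · intro h
      exact ⟨fun ⟨w, hw⟩ => not_isReal_iff_isComplex.2 hw (h.isReal w)⟩
    · intro h
      refine ⟨fun v => ?_⟩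
      by_contra hv
      exact h.false ⟨v, not_isReal_iff_isComplex.1 hv⟩
  have hA2 : A ↔ Pool.Agent.K4H53.BSR.CondB W K := by
    rw [hA, hreal_iff]
    exact ⟨fun h => ⟨h.1, fun l hl hl2 hld => h.2 l hl hld hl2⟩,
      fun h => ⟨h.1, fun l hl hld hl2 => h.2 l hl hl2 hld⟩⟩
  have : NeZero (4 * m) := ⟨mul_ne_zero (by norm_num) (NeZero.ne m)⟩
  have hmodd : Odd m := by
    rw [← Nat.not_even_iff_odd, even_iff_two_dvd]
    intro h
    exact hm 2 Nat.prime_two h (Dvd.intro _ rfl)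
  have ha1 : Even W.a₁ := Pool.Agent.K4H53.BSR.a1_even hΔ2 hss
  have h4m : ∀ l : ℕ, l.Prime → l ≠ 2 → ¬ l ∣ m → ¬ l ∣ 4 * m := by
    intro l hl hl2 hlm h
    rcases (Nat.Prime.dvd_mul hl).1 h with h4 | h4
    · have h6 : l ∣ 2 ^ 2 := by norm_num; exact h4
      exact hl2 ((Nat.prime_dvd_prime_iff_eq hl Nat.prime_two).1 (hl.dvd_of_dvd_pow h6))
    · exact hlm h4
  have hgal : IsGalois ℚ K := Pool.Agent.Y702.L.gal_F (4 * m) M K
  have hfI := isForm hf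
  have hunr : ∀ (p : ℕ), p.Prime → p ≠ 2 → ¬ p ∣ m → ∀ v : HeightOneSpectrum (𝓞 K),
      (p : 𝓞 K) ∈ v.asIdeal → v.valuation K (p : K) = WithZero.exp (-1 : ℤ) :=
    fun p hp hp2 hpm v hv => Pool.Agent.Y702.Fn.unr (4 * m) M K hp (h4m p hp hp2 hpm) v hv
  have hnr : ∀ x : ℚ, Pool.Agent.TH115.GD.cub (Pool.Agent.Y702.G.sh W) x ≠ 0 :=
    Pool.Agent.R425.G.no_root_Q W hq hqΔ hqo
  have hnrK := Pool.Agent.Y702.G.no_root (Pool.Agent.Y702.G.sh W) hnr K n hn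
  have hdisc : ∀ l : ℕ, l.Prime → l ≠ 2 → (l : ℤ) ∣ discr K → ¬ (l : ℤ) ∣ 2 * W.Δ := by
    intro l hl hl2 hld
    have hlm : l ∣ m := by
      by_contra hcon
      exact Pool.Agent.R425.not_disc K hl (fun v hv => hunr l hl hl2 hcon v hv) hld
    exact hm l hl hlm
  have htK : Odd (Nat.card (tors K W)) := Pool.Agent.R425.G.tors_odd W hΔ hnrK
  have htQ : Odd (Nat.card (tors ℚ W)) := Pool.Agent.R425.G.tors_odd W hΔ hnr
  -- the places
  have hbelow : ∀ v : HeightOneSpectrum (𝓞 K), ((W.Δ : ℤ) : 𝓞 K) ∈ v.asIdeal →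
      (∀ x : ℚ, v.valuation K (algebraMap ℚ K x) = (v.under (𝓞 ℚ)).valuation ℚ x) := by
    intro v hv
    obtain ⟨q, hq, hqv⟩ := Pool.Agent.R425.G.exists_prime_mem v
    have h5 : (q : ℤ) ∣ W.Δ := Pool.Agent.R425.G.not_both hq hqv hv
    have hq2 : q ≠ 2 := by
      rintro rfl
      exact hΔ2 (by exact_mod_cast h5)
    have hqm : ¬ q ∣ m := fun h => (hm _ hq h) (h5.mul_left 2)
    exact Pool.Agent.Y702.G.val_eq v _ rfl q (hunr _ hq hq2 hqm v hqv)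
  have hTam : Odd (Tam K W) ↔ Odd (Tam ℚ W) :=
    Pool.Agent.K4H53.BSR.tam_iff4 W hΔ hn hbelow
  have hminK : ∀ v : HeightOneSpectrum (𝓞 K), MinimalAt W v := by
    intro v
    by_cases hv : ((W.Δ : ℤ) : 𝓞 K) ∈ v.asIdeal
    · exact Pool.Agent.K4H53.BSD.min_up hΔ hn (hbelow v hv) (hmin _)
    · intro C h1 h2 h3 h4 h6
      have e : (base W K).Δ = (W.Δ : K) := by
        rw [WeierstrassCurve.map_Δ]
        simp
      rw [e, Pool.Agent.R425.G.unit_of W v hv]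
      exact Pool.Agent.Y702.Fn.disc_le v _ h1 h2 h3 h4 h6
  -- the values
  obtain ⟨hO0, hOK, x₀, x, hx₀, hx, hx₀d, hxd, hxx⟩ : Omega ℚ W ≠ 0 ∧ Omega K W ≠ 0 ∧
      ∃ x₀ x : ℚ, HasValue ℚ W x₀ ∧ HasValue K W x ∧ Odd x₀.den ∧ Odd x.den ∧
      (Odd x.num ↔ Odd x₀.num ∧ A) := by
    rcases lt_or_gt_of_ne hΔ with hneg | hpos
    · have h := values_neg W hneg f hf Λ hg₂ hg₃ hman q hq hqΔ hqo hΔ2 hss m hsq hm M K n hn htK htQ
      have hA3 : A ↔ ∀ l : ℕ, l.Prime → (l : ℤ) ∣ discr K → l ≠ 2 → Odd ((l : ℤ) - pts W (ZMod l)) := by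
        rw [hA]
        exact ⟨fun h => h.2, fun h => ⟨fun h0 => absurd h0 (not_lt.2 hneg.le), h⟩⟩
      rw [hA3]
      exact h
    · have h := values_pos W hpos f hf Λ hg₂ hg₃ hman q hq hqΔ hqo hΔ2 hss m hsq hm M K n hn htK htQ
      have hA3 : A ↔ (nrComplexPlaces K = 0 ∧
          ∀ l : ℕ, l.Prime → (l : ℤ) ∣ discr K → l ≠ 2 → Odd ((l : ℤ) - pts W (ZMod l))) := by
        rw [hA, hreal_iff]
        exact ⟨fun h => ⟨h.1 hpos, h.2⟩, fun h => ⟨fun _ => h.1, h.2⟩⟩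
      rw [hA3]
      exact h
  -- the algebraic side
  have hdown : (rank K W = 0 ∧ Sha2 K W = {0}) → (rank ℚ W = 0 ∧ Sha2 ℚ W = {0}) ∧ A := by
    rw [side_iff W hΔ, side_iff W hΔ, hA2]
    exact Pool.Agent.K4H53.BSR.alg_down4 W hΔ M K n hn hnr hdisc
  have hup : Odd (Tam ℚ W) → (rank ℚ W = 0 ∧ Sha2 ℚ W = {0}) ∧ A →
      (rank K W = 0 ∧ Sha2 K W = {0}) := by
    intro hT
    rw [side_iff W hΔ, side_iff W hΔ, hA2]
    rintro ⟨h1, h2⟩
    exact Pool.Agent.K4H53.BSR.alg_up4 W hΔ hΔ2 ha1 m hmodd M K n hn hnr hdisc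
      ((Pool.Agent.R425.G.tam_odd_iff (K := ℚ) W hΔ).1 hT) h1 h2
  refine ⟨⟨hminK, Pool.Agent.R425.G.cv_fin W hΔ, Pool.Agent.R425.G.cv_fin W hΔ, htK, htQ,
    hTam⟩, ⟨x₀, x, hx₀, hx, hx₀d, hxd, hxx⟩, hdown, hup, ?_, ?_, ?_⟩
  · rintro ⟨y, hy, hyd, hyn⟩
    rw [value_uniq W hO0 hy hx₀] at hyn
    refine ⟨x, hx, hxd, ?_⟩
    rw [hxx, hyn, hTam]
    constructor
    · rintro ⟨⟨h1, h2, h3⟩, h4⟩
      obtain ⟨h5, h6⟩ := hup h3 ⟨⟨h1, h2⟩, h4⟩
      exact ⟨h5, h6, h3⟩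
    · rintro ⟨h1, h2, h3⟩
      obtain ⟨⟨h4, h5⟩, h6⟩ := hdown ⟨h1, h2⟩
      exact ⟨⟨h4, h5, h3⟩, h6⟩
  · rintro hA' ⟨y, hy, hyd, hyn⟩
    rw [value_uniq W hOK hy hx] at hyn
    refine ⟨x₀, hx₀, hx₀d, ?_⟩
    rw [hTam] at hyn
    constructor
    · intro h
      obtain ⟨h1, h2, h3⟩ := hyn.1 (hxx.2 ⟨h, hA'⟩)
      obtain ⟨⟨h4, h5⟩, -⟩ := hdown ⟨h1, h2⟩
      exact ⟨h4, h5, h3⟩
    · rintro ⟨h1, h2, h3⟩
      obtain ⟨h4, h5⟩ := hup h3 ⟨⟨h1, h2⟩, hA'⟩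
      exact (hxx.1 (hyn.2 ⟨h4, h5, h3⟩)).1
  · intro hA'
    refine ⟨x, hx, hxd, ?_⟩
    constructor
    · intro h
      exact absurd (hxx.1 h).2 hA'
    · rintro ⟨h1, h2, -⟩
      exact absurd (hdown ⟨h1, h2⟩).2 hA'

end Pool.Agent.K4H53.BSX.R2
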