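import Pool.Agent.K4H53.BSX.Inst
import Pool.Agent.K4H53.BSX.T1
import Pool.Agent.K4H53.BSX.R2

/-!
# The formula modulo 2 for `X_0(11)`, without hypotheses
-/

set_option autoImplicit false

open NumberField NumberField.InfinitePlace IsDedekindDomain WeierstrassCurve MeasureTheory
open UpperHalfPlane MatrixGroups CongruenceSubgroup

namespace Pool.Agent.K4H53.BSX.Q11

open scoped Classical

open Pool.Agent.TH841.NF.D (Sha)
open Pool.Agent.K4H53.BSX.D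
open Pool.Agent.Y702 (E11)
open Pool.Agent.W97.TW (f11)

lemma min11 {K : Type} [Field K] [NumberField K] (v : HeightOneSpectrum (𝓞 K)) :
    MinimalAt E11 v := fun C h1 h2 h3 h4 h6 =>
  Pool.Agent.Y702.Fn.minimal v C (Pool.Agent.Y702.Fn.c4_le v _ h1 h2 h3 h4 h6)
      (Pool.Agent.Y702.Fn.disc_le v _ h1 h2 h3 h4 h6)

lemma newform11 : IsNewform E11 11 f11 :=
  ⟨form11.one, form11.real, form11.mul, form11.pow, form11.good, form11.bad, form11.fricke,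
    form11.level, form11.coef⟩

lemma man11 : ∃ Λ : PeriodPair, Λ.g₂ = (E11.c₄ : ℂ) / 12 ∧ Λ.g₃ = (E11.c₆ : ℂ) / 216 ∧
    ∃ c : ℤ, Odd c ∧ ∀ γ ∈ Gamma0 11, ∀ z : ℍ,
      (c : ℂ) * (prim f11 ((γ • z : ℍ) : ℂ) - prim f11 (z : ℂ)) ∈ Λ.lattice := by
  obtain ⟨Λ, h2, h3, hper⟩ := lat11
  refine ⟨Λ, h2, h3, 1, odd_one, ?_⟩
  intro γ hγ z
  obtain ⟨ω, hω, h⟩ := hper γ hγ
  have h1 : prim f11 ((γ • z : ℍ) : ℂ) = prim f11 (z : ℂ) + ω := h z
  rw [h1, Int.cast_one, one_mul, add_sub_cancel_left]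
  exact hω

lemma disc_ne : E11.Δ ≠ 0 := by rw [disc11]; norm_num
lemma disc_lt : E11.Δ < 0 := by rw [disc11]; norm_num
lemma disc_odd : ¬ (2 : ℤ) ∣ E11.Δ := by rw [disc11]; norm_num
lemma not3 : ¬ ((3 : ℕ) : ℤ) ∣ 2 * E11.Δ := by rw [disc11]; norm_num

lemma dvd2 {l : ℕ} (hl : l.Prime) (h : (l : ℤ) ∣ 2 * E11.Δ) : l ∣ 22 := by
  rw [disc11] at h
  have h1 : l ∣ 2 * 11 ^ 5 := by
    have h2 : (l : ℤ) ∣ ((2 * 11 ^ 5 : ℕ) : ℤ) := by
      have h3 : ((2 * 11 ^ 5 : ℕ) : ℤ) = -(2 * -161051) := by norm_num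
      rw [h3, dvd_neg]
      exact h
    exact_mod_cast h2
  rcases (Nat.Prime.dvd_mul hl).1 h1 with h2 | h2
  · exact h2.trans (by norm_num)
  · exact (hl.dvd_of_dvd_pow h2).trans (by norm_num)

/-- the formula over `ℚ` -/
theorem bsd_Q : BSDModTwo ℚ E11 ∧ Odd (Tam ℚ E11) ∧ (rank ℚ E11 = 0 ∧ Sha2 ℚ E11 = {0}) := by
  obtain ⟨Λ, h2, h3, hman⟩ := man11
  have hne : NeZero ((1 : ℕ) : ℚ) := ⟨by norm_num⟩
  have hcyc : IsCyclotomicExtension {1} ℚ (CyclotomicField 1 ℚ) :=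
    CyclotomicField.isCyclotomicExtension 1 ℚ
  obtain ⟨hmin, hfin, L, hL1, hL2, x, hx, hxd, hxn, hxl⟩ :=
    Pool.Agent.Results.MP_1a91b9_nt.FormulaModTwoX011.result 1 squarefree_one (by norm_num)
      (CyclotomicField 1 ℚ) ⊥ 0 (by rw [pow_zero]; exact IntermediateField.finrank_bot)
  have hd1 : ∀ l : ℕ, l.Prime →
      ¬ (l : ℤ) ∣ discr (⊥ : IntermediateField ℚ (CyclotomicField 1 ℚ)) := by
    intro l hl hld
    have h5 : ((l : ℕ) : ℤ) ∣ 1 := by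
      have h6 : discr (⊥ : IntermediateField ℚ (CyclotomicField 1 ℚ)) = 1 := by
        have e := IntermediateField.botEquiv ℚ (CyclotomicField 1 ℚ)
        rw [discr_eq_discr_of_ringEquiv _ e.toRingEquiv]
        exact Rat.numberField_discr
      rwa [h6] at hld
    have h6 : l ∣ 1 := by exact_mod_cast h5
    exact hl.one_lt.ne' (Nat.dvd_one.1 h6)
  obtain ⟨⟨-, -, -, -, -, hTam⟩, -, hdq, -, -, hdn, -⟩ := T1.main E11 disc_ne min11 f11 newform11 Λ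
    h2 h3 hman 3 (by norm_num) not3 a3_odd 1 squarefree_one (by
      intro l hl h
      exact absurd (Nat.dvd_one.1 h) hl.one_lt.ne') (CyclotomicField 1 ℚ) ⊥ 0
    (by rw [pow_zero]; exact IntermediateField.finrank_bot) True (by
      refine ⟨fun _ => ⟨fun h => absurd h (not_lt.2 disc_lt.le), ?_⟩, fun _ => trivial⟩
      intro l hl hld
      exact absurd hld (hd1 l hl))
  have hcodd : ∀ v : HeightOneSpectrum (𝓞 (⊥ : IntermediateField ℚ (CyclotomicField 1 ℚ))),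
      Odd (c E11 v) := fun v =>
    Pool.Agent.Y702.Fn.tam_odd Pool.Agent.Y125.s_tamg (fun v hv => 
      Pool.Agent.Y702.Fn.unr 1 (CyclotomicField 1 ℚ) _ (by norm_num) (by norm_num) v hv) v
  have hTamK : Odd (Tam (⊥ : IntermediateField ℚ (CyclotomicField 1 ℚ)) E11) :=
    finprod_induction (fun x => Odd x) odd_one (fun _ _ => Odd.mul) hcodd
  refine ⟨hdn trivial ?_, hTam.1 hTamK, ?_⟩
  swap
  · exact (hdq (hxn.1 (hxl.2 fun l hl hld => absurd hld (hd1 l hl)))).1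
  refine ⟨x * Tam (⊥ : IntermediateField ℚ (CyclotomicField 1 ℚ)) E11, ⟨L, hL1, hL2, ?_⟩, ?_, ?_⟩
  · have hx' : L 1 * √|(discr (⊥ : IntermediateField ℚ (CyclotomicField 1 ℚ)) : ℝ)| *
        (Nat.card (tors (⊥ : IntermediateField ℚ (CyclotomicField 1 ℚ)) E11) : ℂ) ^ 2 =
        x * Omega (⊥ : IntermediateField ℚ (CyclotomicField 1 ℚ)) E11 *
          Tam (⊥ : IntermediateField ℚ (CyclotomicField 1 ℚ)) E11 := hx
    rw [hx']
    push_cast
    ring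
  · have h1 := Rat.mul_den_dvd x (Tam (⊥ : IntermediateField ℚ (CyclotomicField 1 ℚ)) E11)
    rw [Rat.den_natCast, mul_one] at h1
    exact Odd.of_dvd_nat hxd h1
  · have h0 : ((Tam (⊥ : IntermediateField ℚ (CyclotomicField 1 ℚ)) E11 : ℕ) : ℤ) =
        (Tam (⊥ : IntermediateField ℚ (CyclotomicField 1 ℚ)) E11 : ℤ) := rfl
    have hkey : Odd (x * (Tam (⊥ : IntermediateField ℚ (CyclotomicField 1 ℚ)) E11 : ℚ)).num ↔
        Odd x.num := by
      obtain ⟨h1, h2⟩ := Pool.Agent.R425.G.odd_frac (x.num *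
        (Tam (⊥ : IntermediateField ℚ (CyclotomicField 1 ℚ)) E11 : ℤ)) x.den
        (by exact_mod_cast hxd)
      have h4 : ((x.num * (Tam (⊥ : IntermediateField ℚ (CyclotomicField 1 ℚ)) E11 : ℤ) : ℤ) : ℚ) /
          ((x.den : ℤ) : ℚ) = x * (Tam (⊥ : IntermediateField ℚ (CyclotomicField 1 ℚ)) E11 : ℚ) := by
        push_cast
        rw [mul_div_right_comm, Rat.num_div_den]
      rw [h4] at h2
      rw [h2, Int.odd_mul]
      exact ⟨fun h => h.1, fun h => ⟨h, by exact_mod_cast hTamK⟩⟩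
    rw [hkey]
    have hxn' : Odd x.num ↔ rank (⊥ : IntermediateField ℚ (CyclotomicField 1 ℚ)) E11 = 0 ∧
      Sha2 (⊥ : IntermediateField ℚ (CyclotomicField 1 ℚ)) E11 = {0} := hxn
    rw [hxn']
    exact ⟨fun h => ⟨h.1, h.2, hTamK⟩, fun h => ⟨h.1, h.2.1⟩⟩

end Pool.Agent.K4H53.BSX.Q11
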